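import Pool.Agent.Q229.JE.Main

/-!
# The parameters with an irrational optimal 1-ratio form a set of Hausdorff dimension zero

For `α ∈ [0, 1]` let `A_0 = (1 1; 0 1)` and `A_1 = α (1 0; 1 1)`, let `jsr α` be the joint spectral
radius of the pair, and call an infinite word weakly extremal if the norms of its products grow at
the rate `jsr α`. The optimal 1-ratio of `α` is the common frequency of ones of all weakly
extremal words. The set `E` of the `α ∈ [0, 1]` with an irrational optimal 1-ratio has Hausdorff
dimension zero, and hence Lebesgue measure zero.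

Proof (helper81). Let `G(t) = log jsr (exp t)`. An exchange identity shows that almost extremal
words never contain both `0p0` and `1p1`, so that they have at most `L + 1` factors of length `L`;
a repeated factor gives a periodic word of length `q ≤ L + 1` whose spectral radius is
exponentially (in `L`) close to `exp (q G(t))`. If the ratio `r` is irrational then for infinitely
many `M` all fractions `k / q` with `q ≤ M` have `|r - k / q| ≥ 1 / (4 M^2)`, and the convexity
of `G` shows that the parameters `t` for which the periodic word has `k` ones and length `q` lie in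
two sets of exponentially small diameter.
-/

set_option autoImplicit false

namespace Pool.Agent.Results.MP_95d855_an.DimensionZero

open Matrix Finset Filter Topology Pool.Agent.Q120.JS Pool.Agent.Q229.JE MeasureTheory

/-- The two matrices of the family: `A_0`, and `α A_1`. -/
def A (α : ℝ) : Bool → Matrix (Fin 2) (Fin 2) ℝ
  | false => !![1, 1; 0, 1]
  | true => α • !![1, 0; 1, 1]

/-- The product `A(x_n) ... A(x_1)` (the letters of `x` are `x 0, x 1, ...`). -/
def product (α : ℝ) (x : ℕ → Bool) : ℕ → Matrix (Fin 2) (Fin 2) ℝ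
  | 0 => 1
  | n + 1 => A α (x n) * product α x n

/-- The norm: the sum of the absolute values of the entries. -/
def nrm (B : Matrix (Fin 2) (Fin 2) ℝ) : ℝ := ∑ i, ∑ j, |B i j|

/-- The joint spectral radius. -/
noncomputable def jsr (α : ℝ) : ℝ :=
  limsup (fun n : ℕ => ⨆ x : ℕ → Bool, nrm (product α x n) ^ (1 / (n : ℝ))) atTop

/-- Weakly extremal infinite words. -/
def WeaklyExtremal (α : ℝ) (x : ℕ → Bool) : Prop :=
  Tendsto (fun n : ℕ => nrm (product α x n) ^ (1 / (n : ℝ))) atTop (𝓝 (jsr α))

/-- `r` is the optimal 1-ratio: the frequency of ones in every weakly extremal word is `r`. -/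
def IsOptimalRatio (α r : ℝ) : Prop :=
  ∀ x : ℕ → Bool, WeaklyExtremal α x →
    Tendsto (fun n : ℕ => (((range n).filter (fun i => x i = true)).card : ℝ) / n) atTop (𝓝 r)

lemma product_eq (α : ℝ) (x : ℕ → Bool) (n : ℕ) :
    product α x n = α ^ ((fac x 0 n).count true) • M (fac x 0 n) := by
  induction n with
  | zero => simp [product, fac_zero, M]
  | succ n ih =>
    rw [product, ih, fac_succ, Nat.zero_add, M_append, M_single, List.count_append]
    cases h : x n
    · have e : A α false = A0 false := rfl
      have e1 : List.count true [false] = 0 := by simp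
      rw [e, e1, Nat.add_zero, Matrix.mul_smul]
    · have e : A α true = α • A0 true := rfl
      have e1 : List.count true [true] = 1 := by simp
      rw [e, e1, Matrix.mul_smul, Matrix.smul_mul, smul_smul, pow_succ]

lemma nrm_product {α : ℝ} (hα : 0 ≤ α) (x : ℕ → Bool) (n : ℕ) :
    nrm (product α x n) = Q120.JS.val α (fac x 0 n) := by
  rw [product_eq]
  unfold nrm Q120.JS.val sg
  have h : ∀ i j, |(α ^ ((fac x 0 n).count true) • M (fac x 0 n)) i j| =
      α ^ ((fac x 0 n).count true) * M (fac x 0 n) i j := by
    intro i j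
    rw [Matrix.smul_apply, smul_eq_mul]
    exact abs_of_nonneg (mul_nonneg (pow_nonneg hα _) (M_nonneg _ _ _))
  simp only [h, Fin.sum_univ_two]
  ring

lemma card_eq (x : ℕ → Bool) (n : ℕ) :
    ((range n).filter (fun i => x i = true)).card = (fac x 0 n).count true := by
  induction n with
  | zero => simp [fac_zero]
  | succ n ih =>
    rw [fac_succ, List.count_append, ← ih, range_add_one, filter_insert, Nat.zero_add]
    split_ifs with h
    · rw [card_insert_of_notMem (by simp), h]
      simp
    · simp [h]

lemma sup_eq {α : ℝ} (hα : 0 ≤ α) (n : ℕ) :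
    ⨆ x : ℕ → Bool, nrm (product α x n) ^ (1 / (n : ℝ)) = am α n ^ (1 / (n : ℝ)) := by
  have hle : ∀ x : ℕ → Bool, nrm (product α x n) ^ (1 / (n : ℝ)) ≤ am α n ^ (1 / (n : ℝ)) := by
    intro x
    rw [nrm_product hα]
    exact Real.rpow_le_rpow (val_nonneg hα _) (le_am α n x) (by positivity)
  apply le_antisymm
  · exact ciSup_le hle
  · have h1 : BddAbove (Set.range fun x : ℕ → Bool => nrm (product α x n) ^ (1 / (n : ℝ))) := by
      refine ⟨am α n ^ (1 / (n : ℝ)), ?_⟩
      rintro _ ⟨x, rfl⟩
      exact hle x
    have h2 := le_ciSup h1 (exists_max α n).choose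
    rw [nrm_product hα] at h2
    exact h2

lemma jsr_eq {α : ℝ} (hα : 0 < α) : jsr α = Real.exp (FF hα) := by
  unfold jsr
  apply Tendsto.limsup_eq
  have h := (Real.continuous_exp.tendsto _).comp (FF_tendsto hα)
  refine h.congr fun n => ?_
  rw [sup_eq hα.le, Real.rpow_def_of_pos (am_pos hα n)]
  simp only [Function.comp, lu]
  ring_nf

lemma jsr_zero : jsr 0 = 1 ∧ WeaklyExtremal 0 (fun _ => false) := by
  have hlim : Tendsto (fun n : ℕ => ((n : ℝ) + 2) ^ (1 / (n : ℝ))) atTop (𝓝 1) := by
    have h1 := tendsto_rpow_div_mul_add 1 1 (-2) (by norm_num)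
    have h2 : Tendsto (fun n : ℕ => (n : ℝ) + 2) atTop atTop :=
      tendsto_atTop_add_const_right _ _ tendsto_natCast_atTop_atTop
    refine (h1.comp h2).congr fun n => ?_
    simp only [Function.comp]
    congr 2
    ring
  have hval : ∀ n : ℕ, Q120.JS.val 0 (fac (fun _ => false) 0 n) = n + 2 := by
    intro n
    have e : fac (fun _ => false) 0 n = List.replicate n false := by
      unfold fac
      simp
    rw [e]
    unfold Q120.JS.val
    rw [sg_replicate_false]
    simp [List.count_replicate]
  have ham : ∀ n : ℕ, am 0 n = n + 2 := by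
    intro n
    apply le_antisymm _ (am_ge 0 n)
    unfold am
    set w := fac (exists_max 0 n).choose 0 n with hw
    have hwl : w.length = n := length_fac _ _ _
    unfold Q120.JS.val
    rcases Nat.eq_zero_or_pos (w.count true) with h0 | h0
    · have e : w = List.replicate n false := by
        rw [List.eq_replicate_iff]
        refine ⟨hwl, fun b hb => ?_⟩
        cases b
        · rfl
        · exact absurd hb (List.count_eq_zero.1 h0)
      rw [h0, e, sg_replicate_false]
      simp
    · rw [zero_pow (by omega), zero_mul]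
      positivity
  have hj : jsr 0 = 1 := by
    unfold jsr
    apply Tendsto.limsup_eq
    refine hlim.congr fun n => ?_
    rw [sup_eq le_rfl, ham]
  refine ⟨hj, ?_⟩
  unfold WeaklyExtremal
  rw [hj]
  refine hlim.congr fun n => ?_
  rw [nrm_product le_rfl, hval]

lemma weaklyExtremal_of_logExt {α : ℝ} (hα : 0 < α) {x : ℕ → Bool} (h : LogExt hα x) :
    WeaklyExtremal α x := by
  unfold WeaklyExtremal
  rw [jsr_eq hα]
  have h1 := (Real.continuous_exp.tendsto _).comp h
  refine h1.congr fun n => ?_
  rw [nrm_product hα.le, Real.rpow_def_of_pos (val_pos hα _)]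
  simp only [Function.comp]
  ring_nf

/-- Weakly extremal words exist, so that the optimal 1-ratio is unique. -/
theorem exists_weaklyExtremal {α : ℝ} (hα : 0 ≤ α) : ∃ x, WeaklyExtremal α x := by
  rcases hα.eq_or_lt with h | h
  · rw [← h]
    exact ⟨_, jsr_zero.2⟩
  · obtain ⟨x, hx⟩ := exists_logExt h
    exact ⟨x, weaklyExtremal_of_logExt h hx⟩

lemma zero_absurd {γ : ℝ} (hγ : Irrational γ) (h : IsOptimalRatio 0 γ) : False := by
  have h1 := h _ jsr_zero.2
  simp only [Bool.false_eq_true, filter_false, card_empty, Nat.cast_zero, zero_div] at h1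
  exact hγ.ne_zero (tendsto_nhds_unique h1 tendsto_const_nhds)

/-- The optimal 1-ratio is unique. -/
theorem ratio_unique {α r s : ℝ} (hα : 0 ≤ α) (hr : IsOptimalRatio α r)
    (hs : IsOptimalRatio α s) : r = s := by
  obtain ⟨x, hx⟩ := exists_weaklyExtremal hα
  exact tendsto_nhds_unique (hr x hx) (hs x hx)

/-- The set of the parameters in `[0, 1]` with an irrational optimal 1-ratio. -/
def E : Set ℝ := {α | α ∈ Set.Icc (0 : ℝ) 1 ∧ ∃ r, Irrational r ∧ IsOptimalRatio α r}

lemma E_subset : E ⊆ ⋃ T : ℕ, Real.exp '' (ET T) := by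
  rintro α ⟨⟨hα0, hα1⟩, r, hr, hopt⟩
  have hα : 0 < α := by
    rcases hα0.eq_or_lt with h | h
    · subst h
      exact (zero_absurd hr hopt).elim
    · exact h
  obtain ⟨x, hx⟩ := exists_logExt hα
  have hxr := hopt x (weaklyExtremal_of_logExt hα hx)
  simp only [card_eq] at hxr
  obtain ⟨T, hT⟩ := exists_nat_ge (-Real.log α)
  rw [Set.mem_iUnion]
  refine ⟨T, Real.log α, ⟨⟨by linarith, Real.log_nonpos hα0 hα1⟩, r, hr, ?_⟩, Real.exp_log hα⟩
  intro t'
  exact subgrad hα hx hxr t'

/-- `E` has Hausdorff dimension zero and Lebesgue measure zero. -/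
theorem result : dimH E = 0 ∧ volume E = 0 := by
  have h1 : dimH E = 0 := by
    refine le_antisymm ?_ zero_le
    refine (dimH_mono E_subset).trans ?_
    rw [dimH_iUnion]
    refine iSup_le fun T => ?_
    have h2 : dimH (Real.exp '' (ET T)) ≤ dimH (ET T) :=
      Real.contDiff_exp.contDiffOn.dimH_image_le (s := Set.univ) convex_univ (Set.subset_univ _)
    rw [dimH_ET] at h2
    exact h2
  refine ⟨h1, ?_⟩
  rw [← hausdorffMeasure_real]
  have h3 : dimH E < ((1 : NNReal) : ENNReal) := by
    rw [h1]
    simp
  have h4 := hausdorffMeasure_of_dimH_lt h3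
  simpa using h4

end Pool.Agent.Results.MP_95d855_an.DimensionZero
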